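import Pool.Agent.N343.TC.Stm

/-! Project TC, step FIX: the contraction fixed point. -/

set_option autoImplicit false

open MeasureTheory Set Filter Topology Metric Complex
open scoped ContDiff RealInnerProductSpace ComplexConjugate

namespace Pool.Agent.N75.TC.FIX
open Pool.Agent.N343.TC

variable {B : Type} [NormedCommRing B] [NormedAlgebra ℂ B]

theorem st_sub (A : WA B) (x y : B) : A.st (x - y) = A.st x - A.st y := by
  rw [eq_sub_iff_add_eq, ← A.st_add, sub_add_cancel]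

/-- the linear part -/
noncomputable def Q (A : WA B) (a b : B) : B :=
  (2 : ℂ) • A.P a - (3 : ℂ) • A.P (A.st a) - A.P b

theorem Q_sub (A : WA B) (a b a' b' : B) : Q A a b - Q A a' b' = Q A (a - a') (b - b') := by
  simp only [Q, st_sub, map_sub]
  module

theorem Q_norm (A : WA B) (a b : B) : ‖Q A a b‖ ≤ 5 * ‖a‖ + ‖b‖ := by
  have h1 : ‖(2 : ℂ) • A.P a‖ ≤ 2 * ‖a‖ := by
    rw [norm_smul]
    have := A.P_norm a
    simp only [Complex.norm_ofNat]
    linarith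
  have h2 : ‖(3 : ℂ) • A.P (A.st a)‖ ≤ 3 * ‖a‖ := by
    rw [norm_smul]
    have := (A.P_norm (A.st a)).trans (A.st_norm a)
    simp only [Complex.norm_ofNat]
    linarith
  have h3 := A.P_norm b
  have h4 := norm_sub_le ((2 : ℂ) • A.P a - (3 : ℂ) • A.P (A.st a)) (A.P b)
  have h5 := norm_sub_le ((2 : ℂ) • A.P a) ((3 : ℂ) • A.P (A.st a))
  unfold Q
  linarith

theorem P_Q (A : WA B) (a b : B) : A.P (Q A a b) = Q A a b := by
  simp only [Q, map_sub, map_smul, A.P_P]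

theorem main : S_FIX := by
  intro B _ _ _ A h1 h2
  obtain ⟨C1, hC1, h1⟩ := h1
  obtain ⟨C2, hC2, h2⟩ := h2
  obtain ⟨K, hK⟩ := exists_nat_ge (2 * (5 * C1 + C2))
  refine ⟨5 * C1 + C2, max 6 (K + 1), fun k hk => ?_⟩
  have hk6 : 6 ≤ k := le_trans (le_max_left _ _) hk
  have hkK : (K : ℝ) + 1 ≤ k := by exact_mod_cast le_trans (le_max_right _ _) hk
  have hkpos : (0 : ℝ) < k := by
    have : (6 : ℝ) ≤ k := by exact_mod_cast hk6
    linarith
  have hCk : (5 * C1 + C2) / k ≤ 1 / 2 := by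
    rw [div_le_iff₀ hkpos]
    linarith
  have hC0 : 0 ≤ (5 * C1 + C2) / k := by positivity
  obtain ⟨W0, hW0⟩ : ∃ W0 : B, W0 = (-(321 / 160) : ℂ) • A.T := ⟨_, rfl⟩
  have hW0n : ‖W0‖ ≤ 5 := by
    have h3 : ‖(-(321 / 160) : ℂ)‖ = 321 / 160 := by
      rw [norm_neg, norm_div, Complex.norm_ofNat, Complex.norm_ofNat]
    rw [hW0, norm_smul, h3]
    have := A.T_norm
    linarith
  have hPW0 : A.P W0 = W0 := by rw [hW0, map_smul, A.P_T]
  -- the map
  obtain ⟨Φ, hΦ⟩ : ∃ Φ : B → B, ∀ W, Φ W = W0 + Q A (r1 A k W) (r2 A k W) := ⟨_, fun _ => rfl⟩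
  have hball : ∀ W ∈ closedBall W0 1, ‖W‖ ≤ 6 := by
    intro W hW
    rw [mem_closedBall, dist_eq_norm] at hW
    have h3 := norm_add_le (W - W0) W0
    rw [sub_add_cancel] at h3
    linarith
  have hΦ0 : ∀ W : B, ‖W‖ ≤ 6 → ‖Φ W - W0‖ ≤ (5 * C1 + C2) / k := by
    intro W hW
    have h3 := (h1 k hk6 W W hW hW).1
    have h4 := (h2 k hk6 W W hW hW).1
    have h5 := Q_norm A (r1 A k W) (r2 A k W)
    rw [hΦ, add_sub_cancel_left]
    rw [pow_one] at h3 h4
    have h6 : (5 * C1 + C2) / k = 5 * (C1 / k) + C2 / k := by ring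
    rw [h6]
    linarith
  have hΦL : ∀ W W' : B, ‖W‖ ≤ 6 → ‖W'‖ ≤ 6 → ‖Φ W - Φ W'‖ ≤ 1 / 2 * ‖W - W'‖ := by
    intro W W' hW hW'
    have h3 := (h1 k hk6 W W' hW hW').2
    have h4 := (h2 k hk6 W W' hW hW').2
    have h5 := Q_norm A (r1 A k W - r1 A k W') (r2 A k W - r2 A k W')
    rw [← Q_sub] at h5
    rw [hΦ, hΦ, add_sub_add_left_eq_sub]
    rw [pow_one] at h3 h4
    have h6 : (5 * C1 + C2) / k * ‖W - W'‖ =
      5 * (C1 / k * ‖W - W'‖) + C2 / k * ‖W - W'‖ := by ring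
    have h7 : (5 * C1 + C2) / k * ‖W - W'‖ ≤ 1 / 2 * ‖W - W'‖ :=
      mul_le_mul_of_nonneg_right hCk (norm_nonneg _)
    linarith
  have hmaps : MapsTo Φ (closedBall W0 1) (closedBall W0 1) := by
    intro W hW
    rw [mem_closedBall, dist_eq_norm]
    have := hΦ0 W (hball W hW)
    linarith
  have hcontr : ContractingWith (1 / 2 : NNReal) (hmaps.restrict Φ (closedBall W0 1)
      (closedBall W0 1)) := by
    refine ⟨by
      rw [div_lt_one (by norm_num)]
      norm_num, ?_⟩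
    apply LipschitzWith.of_dist_le_mul
    intro x y
    have h3 := hΦL x.1 y.1 (hball _ x.2) (hball _ y.2)
    rw [Subtype.dist_eq, Subtype.dist_eq, dist_eq_norm, dist_eq_norm]
    simpa using h3
  obtain ⟨W, hWb, hfix, -, -⟩ := hcontr.exists_fixedPoint' (isClosed_closedBall.isComplete)
    hmaps (x := W0) (mem_closedBall_self (by norm_num)) (edist_ne_top _ _)
  have hW6 := hball W hWb
  have hWeq : W = W0 + Q A (r1 A k W) (r2 A k W) := by
    rw [← hΦ]
    exact hfix.symm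
  have hPW : A.P W = W := by
    conv_lhs => rw [hWeq]
    rw [map_add, P_Q, hPW0, ← hWeq]
  refine ⟨W, hW6, hPW, ?_, ?_⟩
  · rw [← hW0]
    have h3 := hΦ0 W hW6
    rwa [hfix.eq] at h3
  · have hX : XB A k W = r1 A k W + (3 / 8 : ℂ) • ((4 / 5 : ℂ) • A.T + (5 / 4 : ℂ) • A.S) := by
      rw [r1, sub_add_cancel]
    have hM : MB A k W = r2 A k W + ((k : ℂ) ^ 2 * (RR k : ℂ) ^ 2) • (1 : B) + W + A.st W +
        (6 / 5 : ℂ) • (A.T + A.S) := by
      rw [r2]
      abel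
    have hstS : A.st A.S = A.T := by rw [← A.st_T, A.st_st]
    have hc1 : conj (3 / 8 : ℂ) = 3 / 8 :=
      Complex.conj_eq_iff_real.2 ⟨3 / 8, by push_cast; rfl⟩
    have hc2 : conj (4 / 5 : ℂ) = 4 / 5 :=
      Complex.conj_eq_iff_real.2 ⟨4 / 5, by push_cast; rfl⟩
    have hc3 : conj (5 / 4 : ℂ) = 5 / 4 :=
      Complex.conj_eq_iff_real.2 ⟨5 / 4, by push_cast; rfl⟩
    have hPX : A.P (XB A k W) = A.P (r1 A k W) + (3 / 10 : ℂ) • A.T := by
      rw [hX, map_add, map_smul, map_add, map_smul, map_smul, A.P_T, A.P_S]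
      module
    have hPsX : A.P (A.st (XB A k W)) = A.P (A.st (r1 A k W)) + (15 / 32 : ℂ) • A.T := by
      rw [hX, A.st_add, A.st_smul, A.st_add, A.st_smul, A.st_smul, A.st_T, hstS, hc1, hc2, hc3,
        map_add, map_smul, map_add, map_smul, map_smul, A.P_T, A.P_S]
      module
    have hPsW : A.P (A.st W) = 0 := by
      have h3 := A.P_st_P W
      rwa [hPW] at h3
    have hPM : A.P (MB A k W) = A.P (r2 A k W) + W + (6 / 5 : ℂ) • A.T := by
      rw [hM, map_add, map_add, map_add, map_add, map_smul, map_smul, map_add, A.P_one, A.P_T,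
        A.P_S, hPW, hPsW]
      module
    rw [hPX, hPsX, hPM]
    have h4 : W = (-(321 / 160) : ℂ) • A.T + ((2 : ℂ) • A.P (r1 A k W) -
        (3 : ℂ) • A.P (A.st (r1 A k W)) - A.P (r2 A k W)) := by
      rw [← hW0]
      exact hWeq
    generalize A.P (r1 A k W) = a at h4 ⊢
    generalize A.P (A.st (r1 A k W)) = b at h4 ⊢
    generalize A.P (r2 A k W) = c at h4 ⊢
    rw [h4]
    module

end Pool.Agent.N75.TC.FIX
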